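import Pool.Agent.Helper34.ST.Basic

/-!
# Oriented paths: module NL1 (height one)
-/

set_option autoImplicit false

namespace Pool.Agent.Helper34.ST

open Finset

theorem nl1_step {ι : Type} {r : ι → ι → Prop} {x s p t : ι} (h : Conn r 1 x s) (h1 : r s t) (h2 : r p t) :
    Conn r 1 x p :=
  Relation.ReflTransGen.tail h ⟨t, Pth.one h1, Pth.one h2⟩

theorem nl1_main {ι : Type} [Fintype ι] {r : ι → ι → Prop} {d : ℝ} (hd : 0 < d) (hw : Wt r d)
    {z : ι → ℝ} (hz : Cst z d) (x : ι) : ∃ s t, Conn r 1 x s ∧ r s t ∧ z s + z t ≤ 2 := by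
  classical
  by_contra hcon
  push Not at hcon
  obtain ⟨U, hU⟩ : ∃ U : Finset ι, ∀ y, y ∈ U ↔ (Conn r 1 x y ∨ ∃ s, Conn r 1 x s ∧ r s y) :=
    ⟨univ.filter (fun y => Conn r 1 x y ∨ ∃ s, Conn r 1 x s ∧ r s y), fun y => by simp⟩
  have hx : Conn r 1 x x := Relation.ReflTransGen.refl
  have hout : ∀ y, d ≤ ((univ.filter (fun t => r y t)).card : ℝ) := by
    intro y
    have := hw.toO.ncard y
    have e : {t | r y t}.ncard = (univ.filter (fun t => r y t)).card := by
      rw [← Set.ncard_coe_finset]; congr 1; ext t; simp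
    rwa [e] at this
  have hin : ∀ y, d ≤ ((univ.filter (fun t => r t y)).card : ℝ) := by
    intro y
    have := hw.flip.toO.ncard y
    have e : {t | r t y}.ncard = (univ.filter (fun t => r t y)).card := by
      rw [← Set.ncard_coe_finset]; congr 1; ext t; simp
    rwa [e] at this
  have hpar : ∀ t, (∃ s, Conn r 1 x s ∧ r s t) → ∀ p, r p t → Conn r 1 x p := by
    rintro t ⟨s, hs, hst⟩ p hp
    exact nl1_step hs hst hp
  have hcardU : 2 * d ≤ (U.card : ℝ) := by
    by_cases hdis : ∃ y, Conn r 1 x y ∧ ∃ s, Conn r 1 x s ∧ r s y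
    · obtain ⟨y, hy, hy2⟩ := hdis
      obtain ⟨w, w0, wr, w1, wo, wi⟩ := hw
      have h1 : 2 * d ≤ ∑ t, (w y t + w t y) := by
        rw [Finset.sum_add_distrib]
        have := wo y
        have := wi y
        linarith
      have h2 : ∑ t, (w y t + w t y) ≤ ∑ t, (if t ∈ U then (1 : ℝ) else 0) := by
        refine Finset.sum_le_sum fun t _ => ?_
        split_ifs with ht
        · exact w1 y t
        · have a1 : w y t ≤ 0 := by
            by_contra hc
            push Not at hc
            exact ht ((hU t).2 (Or.inr ⟨y, hy, wr y t hc⟩))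
          have a2 : w t y ≤ 0 := by
            by_contra hc
            push Not at hc
            exact ht ((hU t).2 (Or.inl (hpar y hy2 t (wr t y hc))))
          linarith
      have h3 : ∑ t, (if t ∈ U then (1 : ℝ) else 0) = U.card := by
        rw [Finset.sum_ite_mem, Finset.univ_inter, Finset.sum_const, nsmul_eq_mul, mul_one]
      linarith
    · push Not at hdis
      obtain ⟨y0, hy0⟩ := hw.exists_out hd x
      have hsub : (univ.filter (fun t => r x t)) ∪ (univ.filter (fun t => r t y0)) ⊆ U := by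
        intro t ht
        rw [Finset.mem_union, Finset.mem_filter, Finset.mem_filter] at ht
        rcases ht with h | h
        · exact (hU t).2 (Or.inr ⟨x, hx, h.2⟩)
        · exact (hU t).2 (Or.inl (hpar y0 ⟨x, hx, hy0⟩ t h.2))
      have hdj : Disjoint (univ.filter (fun t => r x t)) (univ.filter (fun t => r t y0)) := by
        rw [Finset.disjoint_left]
        intro t h1 h2
        rw [Finset.mem_filter] at h1 h2
        exact hdis t (hpar y0 ⟨x, hx, hy0⟩ t h2.2) x hx h1.2
      have hc := Finset.card_le_card hsub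
      rw [Finset.card_union_of_disjoint hdj] at hc
      have hc' : (((univ.filter (fun t => r x t)).card + (univ.filter (fun t => r t y0)).card : ℕ) : ℝ) ≤
          (U.card : ℝ) := by exact_mod_cast hc
      push_cast at hc'
      have := hout x
      have := hin y0
      linarith
  have hsumU : ∑ i ∈ U, z i ≤ 2 * d :=
    (Finset.sum_le_sum_of_subset_of_nonneg (Finset.subset_univ U) (fun i _ _ => hz.1 i)).trans hz.2
  have hxU : x ∈ U := (hU x).2 (Or.inl hx)
  obtain ⟨u0, hu0, hmin⟩ := Finset.exists_min_image U z ⟨x, hxU⟩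
  rcases le_or_gt 1 (z u0) with ha | ha
  · obtain ⟨y0, hy0⟩ := hw.exists_out hd x
    have hy0U : y0 ∈ U := (hU y0).2 (Or.inr ⟨x, hx, hy0⟩)
    have h2 := hcon x y0 hx hy0
    have hlt : ∃ i ∈ U, (1 : ℝ) < z i := by
      by_cases h3 : 1 < z x
      · exact ⟨x, hxU, h3⟩
      · exact ⟨y0, hy0U, by linarith⟩
    have h4 : ∑ _i ∈ U, (1 : ℝ) < ∑ i ∈ U, z i :=
      Finset.sum_lt_sum (fun i hi => ha.trans (hmin i hi)) hlt
    rw [Finset.sum_const, nsmul_eq_mul, mul_one] at h4
    linarith
  · -- a set of at least d vertices of U with z > 2 - a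
    have key : ∃ N : Finset ι, N ⊆ U ∧ d ≤ (N.card : ℝ) ∧ ∀ t ∈ N, 2 - z u0 < z t := by
      rcases (hU u0).1 hu0 with h | h
      · refine ⟨univ.filter (fun t => r u0 t), ?_, hout u0, ?_⟩
        · intro t ht
          rw [Finset.mem_filter] at ht
          exact (hU t).2 (Or.inr ⟨u0, h, ht.2⟩)
        · intro t ht
          rw [Finset.mem_filter] at ht
          have := hcon u0 t h ht.2
          linarith
      · refine ⟨univ.filter (fun t => r t u0), ?_, hin u0, ?_⟩
        · intro t ht
          rw [Finset.mem_filter] at ht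
          exact (hU t).2 (Or.inl (hpar u0 h t ht.2))
        · intro t ht
          rw [Finset.mem_filter] at ht
          have := hcon t u0 (hpar u0 h t ht.2) ht.2
          linarith
    obtain ⟨N, hNU, hNd, hNz⟩ := key
    have hNpos : 0 < N.card := by
      have : (0 : ℝ) < N.card := lt_of_lt_of_le hd hNd
      exact_mod_cast this
    have hNne : N.Nonempty := Finset.card_pos.1 hNpos
    have h1 : ∑ i ∈ U \ N, z i + ∑ i ∈ N, z i = ∑ i ∈ U, z i := Finset.sum_sdiff hNU
    have h2 : ((U \ N).card : ℝ) * z u0 ≤ ∑ i ∈ U \ N, z i := by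
      rw [← nsmul_eq_mul, ← Finset.sum_const]
      exact Finset.sum_le_sum fun i hi => hmin i (Finset.mem_sdiff.1 hi).1
    have h3 : (N.card : ℝ) * (2 - z u0) < ∑ i ∈ N, z i := by
      rw [← nsmul_eq_mul, ← Finset.sum_const]
      exact Finset.sum_lt_sum_of_nonempty hNne hNz
    have h4 : ((U \ N).card : ℝ) = U.card - N.card := by
      rw [Finset.card_sdiff_of_subset hNU, Nat.cast_sub (Finset.card_le_card hNU)]
    rw [h4] at h2
    have ha0 : 0 ≤ z u0 := hz.1 u0
    nlinarith [mul_nonneg ha0 (sub_nonneg.2 hcardU), mul_nonneg (sub_nonneg.2 ha.le) (sub_nonneg.2 hNd)]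

theorem st_NL1 : ST_NL1 := by
  intro ι _ r d hd hw z hz e x
  obtain ⟨s, t, h1, h2, h3⟩ := nl1_main hd hw hz x
  refine ⟨fun i => if i = 0 then s else t, ?_, ?_, ?_⟩
  · intro i hi
    have : i = 0 := by omega
    subst this
    simpa using h2
  · simpa using h1
  · rw [Finset.sum_range_one, Finset.sum_range_one]
    have e1 : (if (0 : ℕ) = 0 then s else t) = s := if_pos rfl
    have e2 : (if (0 : ℕ) + 1 = 0 then s else t) = t := if_neg (by omega)
    show (e 0 : ℝ) * (z (if (0 : ℕ) = 0 then s else t) + z (if (0 : ℕ) + 1 = 0 then s else t)) ≤ 2 * (e 0 : ℝ)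
    rw [e1, e2]
    have : (0 : ℝ) ≤ e 0 := Nat.cast_nonneg _
    nlinarith

end Pool.Agent.Helper34.ST
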