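import Pool.Agent.Helper34.ST.Basic

/-!
# Oriented paths: module PH (phase with switching)
-/

set_option autoImplicit false

namespace Pool.Agent.Helper34.ST

open Finset

theorem ph_full {ι : Type} {r : ι → ι → Prop} {z : ι → ℝ} {Zm : ℝ} {ℓ J : ℕ}
    (hz : ∀ i, z i ≤ Zm) (σ : ℕ → Bool) (s : ℕ) (lo : ℤ)
    (hlo : ∀ t, s ≤ t → t ≤ s + ℓ → lo ≤ ht σ t ∧ ht σ t ≤ lo + (J + 1))
    (u v : ℤ → ι) (hu : Dir r u) (hv : Dir r v)
    (hR : ¬ Rg σ s (s + ℓ) J) (hsw : v lo = u lo ∨ v (lo + (J + 1)) = u (lo + (J + 1))) :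
    ∃ W : ℕ → ι, Walk r σ s (s + ℓ) W ∧ W s = u (ht σ s) ∧ W (s + ℓ) = v (ht σ (s + ℓ)) ∧
      cost z W s (s + ℓ) ≤ ℓ * Zm := by
  unfold Rg at hR
  push Not at hR
  obtain ⟨s', t', h1, h2, h3, h4, h5⟩ := hR
  have hs' := hlo s' h1 h2
  have ht' := hlo t' h3 h4
  have e1 : ht σ s' = lo + (J + 1) := by omega
  have e2 : ht σ t' = lo := by omega
  have key : ∃ t0, s ≤ t0 ∧ t0 ≤ s + ℓ ∧ v (ht σ t0) = u (ht σ t0) := by
    rcases hsw with h | h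
    · exact ⟨t', h3, h4, by rw [e2]; exact h⟩
    · exact ⟨s', h1, h2, by rw [e1]; exact h⟩
  obtain ⟨t0, h6, h7, h8⟩ := key
  obtain ⟨W, hW, hW1, hW2⟩ := cat (A := r) (σ := σ) (a := s) (b := t0) (c := s + ℓ)
    (W1 := fun t => u (ht σ t)) (W2 := fun t => v (ht σ t)) h6 h7
    (walk_dir hu σ s t0) (walk_dir hv σ t0 (s + ℓ)) h8.symm
  exact ⟨W, hW, hW1 s h6, hW2 (s + ℓ) h7, cost_le hz W s ℓ⟩

theorem st_PH : ST_PH := by
  intro ι r z κ Zm ℓ J hz0 hz hκ hℓ hNC σ a lo Q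
  induction Q with
  | zero =>
    intro _ U hU _
    refine ⟨fun t => U 0 (ht σ t), walk_dir (hU 0) σ _ _, rfl, ?_, ?_⟩
    · rw [nfull_zero]
    · rw [nfull_zero]
      unfold cost
      simp
  | succ Q ih =>
    intro hlo U hU hsw
    have eQ : a + (Q + 1) * ℓ = a + Q * ℓ + ℓ := by ring
    obtain ⟨W1, hW1, hs1, he1, hc1⟩ := ih (fun t h1 h2 => hlo t h1 (by rw [eQ]; omega)) U hU
      (fun i hi => hsw i (lt_of_lt_of_le hi (nfull_mono σ a ℓ J (Nat.le_succ Q))))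
    have hn := nfull_succ σ a ℓ J Q
    by_cases hR : Rg σ (a + Q * ℓ) (a + (Q + 1) * ℓ) J
    · rw [if_pos hR, add_zero] at hn
      rw [eQ] at hR
      obtain ⟨W2, hW2, hs2, he2, hc2⟩ := hNC σ (U (nfull σ a ℓ J Q)) (a + Q * ℓ) (hU _) hR
      obtain ⟨W, hW, hWa, hWb⟩ := cat (A := r) (Nat.le_add_right a (Q * ℓ)) (Nat.le_add_right (a + Q * ℓ) ℓ)
        hW1 hW2 (he1.trans hs2.symm)
      refine ⟨W, ?_, ?_, ?_, ?_⟩
      · rw [eQ]; exact hW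
      · rw [hWa a (Nat.le_add_right a (Q * ℓ))]; exact hs1
      · rw [eQ, hWb _ (Nat.le_add_right (a + Q * ℓ) ℓ), hn]; exact he2
      · rw [eQ, cat_cost (Nat.le_add_right a (Q * ℓ)) (Nat.le_add_right (a + Q * ℓ) ℓ) hWa hWb, hn]
        push_cast
        linarith
    · rw [if_neg hR] at hn
      rw [eQ] at hR
      have hsw2 := hsw (nfull σ a ℓ J Q) (by rw [hn]; exact Nat.lt_succ_self _)
      have hsw3 : U (nfull σ a ℓ J Q + 1) lo = U (nfull σ a ℓ J Q) lo ∨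
          U (nfull σ a ℓ J Q + 1) (lo + (J + 1)) = U (nfull σ a ℓ J Q) (lo + (J + 1)) := by
        rcases Nat.even_or_odd (nfull σ a ℓ J Q) with h | h
        · exact Or.inl (hsw2.1 h)
        · exact Or.inr (hsw2.2 h)
      obtain ⟨W2, hW2, hs2, he2, hc2⟩ := ph_full (r := r) (z := z) (ℓ := ℓ) (J := J) hz σ (a + Q * ℓ) lo
        (fun t h1 h2 => hlo t (by omega) (by rw [eQ]; exact h2))
        (U (nfull σ a ℓ J Q)) (U (nfull σ a ℓ J Q + 1)) (hU _) (hU _) hR hsw3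
      obtain ⟨W, hW, hWa, hWb⟩ := cat (A := r) (Nat.le_add_right a (Q * ℓ)) (Nat.le_add_right (a + Q * ℓ) ℓ)
        hW1 hW2 (he1.trans hs2.symm)
      refine ⟨W, ?_, ?_, ?_, ?_⟩
      · rw [eQ]; exact hW
      · rw [hWa a (Nat.le_add_right a (Q * ℓ))]; exact hs1
      · rw [eQ, hWb _ (Nat.le_add_right (a + Q * ℓ) ℓ), hn]; exact he2
      · rw [eQ, cat_cost (Nat.le_add_right a (Q * ℓ)) (Nat.le_add_right (a + Q * ℓ) ℓ) hWa hWb, hn]
        push_cast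
        nlinarith [hc1, hc2, hκ]

end Pool.Agent.Helper34.ST
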